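import Pool.Agent.Run7.h105.EO.I

/-!
# MP_0f290c_co, piece WSEQ (helper333 for helper105)
-/

set_option autoImplicit false

open Cardinal Set

noncomputable section

namespace Pool.Agent.Run7.h333.EO

open Pool.Agent.Run7.h105.EO

theorem B_single {Λ : Type} (A : Λ → Set Λ) (v : Λ →₀ ZMod 3) (y : Λ) :
    B A v (Finsupp.single y 1) =
      open Classical in v.sum fun γ a => if y ∈ A γ then a else 0 := by
  classical
  unfold B
  refine Finsupp.sum_congr fun γ _ => ?_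
  rw [Finsupp.sum_single_index]
  · simp
  · simp

theorem B_single_sub {Λ : Type} (A : Λ → Set Λ) (v w : Λ →₀ ZMod 3) (y : Λ) :
    B A (v - w) (Finsupp.single y 1) =
      B A v (Finsupp.single y 1) - B A w (Finsupp.single y 1) := by
  classical
  rw [B_single, B_single, B_single]
  rw [Finsupp.sum_sub_index]
  intro a b c
  split_ifs <;> simp

/-- the set to be avoided later -/
def N {Λ : Type} (A : Λ → Set Λ) (v : Λ →₀ ZMod 3) : Set Λ :=
  (v.support : Set Λ) ∪ ⋃ β : v.support, A β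

theorem B_ne {Λ : Type} (A : Λ → Set Λ) (v : Λ →₀ ZMod 3) (y : Λ)
    (h : B A v (Finsupp.single y 1) ≠ 0) : y ∈ N A v := by
  classical
  by_contra hy
  apply h
  rw [B_single]
  refine Finset.sum_eq_zero fun β hβ => ?_
  have h1 : y ∉ A β := fun hyβ => hy (Or.inr (Set.mem_iUnion.mpr ⟨⟨β, hβ⟩, hyβ⟩))
  simp only [if_neg h1]

theorem card_N {Λ : Type} (c : Cardinal.{0}) (hc : ℵ₀ ≤ c) (A : Λ → Set Λ)
    (hA : ∀ α, #(A α) ≤ c) (v : Λ →₀ ZMod 3) : #(N A v) ≤ c := by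
  have h1 : #(v.support : Set Λ) ≤ c := by
    have := (Finset.finite_toSet v.support).lt_aleph0
    exact this.le.trans hc
  refine (mk_union_le _ _).trans (add_le_of_le hc h1 ?_)
  refine (mk_iUnion_le _).trans (mul_le_of_le hc ?_ ?_)
  · exact (lt_aleph0_of_finite _).le.trans hc
  · exact ciSup_le' fun β => hA β

theorem exists_step {M Λ : Type} (A : Λ → Set Λ) (hM : ℵ₀ ≤ #M)
    (strong : ∀ ν : Cardinal.{0}, ν < #M → (2 : Cardinal.{0}) ^ ν < #M)
    (U : AddSubgroup (Λ →₀ ZMod 3)) (hU : #M ≤ #U) (Y : Set Λ) (hY : #Y < #M) :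
    ∃ x : Λ →₀ ZMod 3, x ∈ U ∧ x ≠ 0 ∧ ∀ y ∈ Y, x y = 0 ∧ B A x (Finsupp.single y 1) = 0 := by
  classical
  let F : U → (Y → ZMod 3 × ZMod 3) := fun u y =>
    ((u : Λ →₀ ZMod 3) (y : Λ), B A (u : Λ →₀ ZMod 3) (Finsupp.single (y : Λ) 1))
  have h9 : #(ZMod 3 × ZMod 3) ≤ (2 : Cardinal.{0}) ^ ((4 : ℕ) : Cardinal.{0}) := by
    rw [mk_fintype]
    have h1 : Fintype.card (ZMod 3 × ZMod 3) = 9 := by
      simp [Fintype.card_prod, ZMod.card]
    rw [h1, Cardinal.power_natCast]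
    have h2 : (((9 : ℕ)) : Cardinal.{0}) ≤ ((2 ^ 4 : ℕ) : Cardinal.{0}) := by
      exact_mod_cast (by norm_num : (9 : ℕ) ≤ 2 ^ 4)
    rw [Nat.cast_pow] at h2
    exact_mod_cast h2
  have hcard : #(Y → ZMod 3 × ZMod 3) < #M := by
    have h5 : #(Y → ZMod 3 × ZMod 3) ≤ (2 : Cardinal.{0}) ^ (((4 : ℕ) : Cardinal.{0}) * #Y) := by
      rw [Cardinal.power_mul, ← Cardinal.power_def]
      exact Cardinal.power_le_power_right h9
    refine h5.trans_lt (strong _ (mul_lt_of_lt hM ?_ hY))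
    exact lt_of_lt_of_le (Cardinal.natCast_lt_aleph0 (n := 4)) hM
  have hninj : ¬ Function.Injective F := fun hF =>
    absurd (hU.trans (mk_le_of_injective hF)) (not_le.mpr hcard)
  rw [Function.Injective] at hninj
  push Not at hninj
  obtain ⟨u, u', huu, hne⟩ := hninj
  refine ⟨(u : Λ →₀ ZMod 3) - u', U.sub_mem u.2 u'.2, ?_, ?_⟩
  · intro h
    exact hne (Subtype.ext (sub_eq_zero.mp h))
  · intro y hy
    have h6 := congrFun huu ⟨y, hy⟩
    simp only [F, Prod.mk.injEq] at h6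
    refine ⟨?_, ?_⟩
    · rw [Finsupp.sub_apply, h6.1, sub_self]
    · rw [B_single_sub, h6.2, sub_self]

theorem t_WSEQ : S_WSEQ := by
  classical
  intro Θ M Λ A hΘ hΘM strong hA U hU
  have hM : ℵ₀ ≤ #M := hΘ.trans hΘM.le
  -- the index set
  let I : Type := (#M).ord.ToType
  have hI : ∀ i : I, #(Set.Iio i) < #M := fun i => Cardinal.mk_Iio_toType_ord_lt i
  have hIP : #I = #(Θ × M) := by
    have h1 : #I = #M := mk_ord_toType _
    rw [h1, mk_prod, lift_id, lift_id, Cardinal.mul_eq_right hM hΘM.le]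
    exact (lt_of_lt_of_le aleph0_pos hΘ).ne'
  obtain ⟨e⟩ := Cardinal.eq.mp hIP
  -- the recursion
  let Q : ∀ i : I, (∀ j, j < i → (Λ →₀ ZMod 3)) → (Λ →₀ ZMod 3) → Prop := fun i ih x =>
    x ∈ U (e i).1 ∧ x ≠ 0 ∧ ∀ j (hj : j < i), ∀ y ∈ N A (ih j hj),
      x y = 0 ∧ B A x (Finsupp.single y 1) = 0
  have hQ : ∀ i ih, ∃ x, Q i ih x := by
    intro i ih
    obtain ⟨x, hx1, hx2, hx3⟩ := exists_step A hM strong (U (e i).1) (hU _)
      (⋃ j : Set.Iio i, N A (ih j j.2)) (by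
        refine (mk_iUnion_le _).trans_lt (mul_lt_of_lt hM (hI i) ?_)
        exact (ciSup_le' fun j => card_N _ hΘ A hA _).trans_lt hΘM)
    exact ⟨x, hx1, hx2, fun j hj y hy => hx3 y (Set.mem_iUnion.mpr ⟨⟨j, hj⟩, hy⟩)⟩
  let W : I → (Λ →₀ ZMod 3) :=
    (wellFounded_lt (α := I)).fix fun i ih => (hQ i ih).choose
  have hW : ∀ i, Q i (fun j _ => W j) (W i) := by
    intro i
    have h2 : W i = (hQ i (fun j _ => W j)).choose :=
      (wellFounded_lt (α := I)).fix_eq _ i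
    rw [h2]
    exact (hQ i (fun j _ => W j)).choose_spec
  have key : ∀ i j : I, j < i → Disjoint (W i).support (W j).support ∧
      ∀ γ, B A (W i) (Finsupp.single γ 1) = 0 ∨ B A (W j) (Finsupp.single γ 1) = 0 := by
    intro i j hji
    obtain ⟨_, _, h3⟩ := hW i
    refine ⟨?_, ?_⟩
    · rw [Finset.disjoint_left]
      intro y hyi hyj
      exact (Finsupp.mem_support_iff.mp hyi) (h3 j hji y (Or.inl hyj)).1
    · intro γ
      by_cases h : B A (W j) (Finsupp.single γ 1) = 0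
      · exact Or.inr h
      · exact Or.inl (h3 j hji γ (B_ne A _ _ h)).2
  refine ⟨fun ξ ν => W (e.symm (ξ, ν)), ?_, ?_⟩
  · intro ξ ν
    obtain ⟨h1, h2, _⟩ := hW (e.symm (ξ, ν))
    rw [Equiv.apply_symm_apply] at h1
    exact ⟨h1, h2⟩
  · intro ξ ν ξ' ν' hne
    have hne' : e.symm (ξ, ν) ≠ e.symm (ξ', ν') := fun h => hne (e.symm.injective h)
    rcases lt_or_gt_of_ne hne' with h | h
    · obtain ⟨h1, h2⟩ := key _ _ h
      exact ⟨h1.symm, fun γ => (h2 γ).symm⟩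
    · exact key _ _ h

end Pool.Agent.Run7.h333.EO
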